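import Pool.Agent.Helper38.ND.Goals
import Pool.Agent.Helper22.PP.CDEC

/-!
# Project ND (MP_fc6b1e_nt), packet N_SHT: short intervals
-/

namespace Pool.Agent.Helper30.ND

open Finset Pool.Agent.Helper17.PP Pool.Agent.Helper17.PP0 Pool.Agent.Helper38.ND

section

variable {p : ℕ} {B B₀ k U Λ C : Type} [Field k] [AddCommGroup U] [Module k U]
    [AddCommGroup Λ] [Module k Λ] [AddCommGroup C] (S : Sys p B B₀ k U Λ C)

theorem nm_pos (b : Finset B) : 1 ≤ S.nm b := by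
  unfold Sys.nm
  exact Nat.one_le_iff_ne_zero.2 (Finset.prod_ne_zero_iff.2 fun q _ => by
    have := S.two_le q
    omega)

theorem nm_posR (b : Finset B) : (1 : ℝ) ≤ S.nm b := by
  exact_mod_cast nm_pos S b

theorem logN_nonneg (q : B) : 0 ≤ Real.log (S.N q) := by
  apply Real.log_nonneg
  have := S.two_le q
  exact_mod_cast (by omega : 1 ≤ S.N q)

theorem nm_erase [DecidableEq B] (b : Finset B) (q : B) (hq : q ∈ b) : S.nm b = S.N q * S.nm (b.erase q) := by
  unfold Sys.nm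
  rw [Finset.mul_prod_erase b S.N hq]

theorem log_nm (b : Finset B) : Real.log (S.nm b) = ∑ q ∈ b, Real.log (S.N q) := by
  unfold Sys.nm
  push_cast
  rw [Real.log_prod]
  intro q _
  have := S.two_le q
  exact_mod_cast (by omega : S.N q ≠ 0)

/-- the count of the sets of norm at most `a Y` from the exponential sum -/
theorem count_le (P : Finset B) (Y : ℝ) (hY : 0 < Y) (a T : ℝ)
    (h : ∑ b ∈ P.powerset, Real.exp (-(S.nm b / Y)) ≤ T) (F : Finset (Finset B)) (hF : F ⊆ P.powerset)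
    (hF2 : ∀ b ∈ F, (S.nm b : ℝ) ≤ a * Y) : (F.card : ℝ) ≤ Real.exp a * T := by
  have h1 : (F.card : ℝ) * Real.exp (-a) ≤ T := by
    calc (F.card : ℝ) * Real.exp (-a) = ∑ _b ∈ F, Real.exp (-a) := by simp
      _ ≤ ∑ b ∈ F, Real.exp (-(S.nm b / Y)) := by
          refine Finset.sum_le_sum fun b hb => Real.exp_le_exp.2 (neg_le_neg ?_)
          rw [div_le_iff₀ hY]
          exact hF2 b hb
      _ ≤ ∑ b ∈ P.powerset, Real.exp (-(S.nm b / Y)) :=
          Finset.sum_le_sum_of_subset_of_nonneg hF fun _ _ _ => (Real.exp_pos _).le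
      _ ≤ T := h
  have h2 : (F.card : ℝ) = Real.exp a * ((F.card : ℝ) * Real.exp (-a)) := by
    rw [mul_comm, mul_assoc, ← Real.exp_add]
    simp
  rw [h2]
  exact mul_le_mul_of_nonneg_left h1 (Real.exp_pos _).le

end

theorem exp_sum {p : ℕ} {B B₀ k U Λ C : Type} [Field k] [Fintype k] [Algebra (ZMod p) k]
    [AddCommGroup U] [Module k U] [AddCommGroup Λ] [Module k Λ]
    [AddCommGroup C] (S : Sys p B B₀ k U Λ C) (ψ : AddChar k ℂ)
    (g : ℝ → ℝ) (K : ℕ) (H : Hyp₀ S ψ g K) (Y : ℝ) (hY : 1 ≤ Y) (P : Finset B) :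
    ∑ b ∈ P.powerset, Real.exp (-(S.nm b / Y)) ≤ K * (Y * g Y) := by
  have h := H.ht (fun _ => 1) (fun q => ⟨zero_le_one, by
    have : (0 : ℝ) ≤ Fintype.card k := Nat.cast_nonneg _
    linarith⟩) Y (by linarith) P
  simp only [prod_const_one, one_mul, sub_self, zero_div, sum_const_zero, Real.exp_zero, mul_one] at h
  rwa [min_eq_left hY, mul_one] at h

theorem sum_inv {p : ℕ} {B B₀ k U Λ C : Type} [Field k] [Fintype k] [Algebra (ZMod p) k]
    [AddCommGroup U] [Module k U] [AddCommGroup Λ] [Module k Λ]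
    [AddCommGroup C] (S : Sys p B B₀ k U Λ C) (ψ : AddChar k ℂ)
    (g : ℝ → ℝ) (K : ℕ) (H : Hyp₀ S ψ g K) (X : ℝ) (hX : 1 ≤ Real.log X) (hX1 : 1 ≤ X) (P : Finset B) :
    ∑ r ∈ P.powerset with (S.nm r : ℝ) ≤ X, (1 : ℝ) / S.nm r ≤
      3 * Real.exp 2 * K ^ 2 * g X * Real.log X := by
  classical
  set F := P.powerset.filter fun r => (S.nm r : ℝ) ≤ X with hF
  set L := Nat.log 2 ⌊X⌋₊ with hL
  have hX0 : ⌊X⌋₊ ≠ 0 := by
    have := Nat.le_floor (by exact_mod_cast hX1 : ((1 : ℕ) : ℝ) ≤ X)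
    omega
  have hmap : ∀ r ∈ F, Nat.log 2 (S.nm r) ∈ Finset.range (L + 1) := by
    intro r hr
    rw [hF, mem_filter] at hr
    rw [mem_range, Nat.lt_succ_iff, hL]
    exact Nat.log_mono_right (Nat.le_floor hr.2)
  have hL2 : ∀ i, i ≤ L → (2 : ℝ) ^ i ≤ X := by
    intro i hi
    have h1 : 2 ^ L ≤ ⌊X⌋₊ := Nat.pow_log_le_self 2 hX0
    have h2 : (2 : ℝ) ^ L ≤ ⌊X⌋₊ := by exact_mod_cast h1
    have h3 : (2 : ℝ) ^ i ≤ 2 ^ L := pow_le_pow_right₀ (by norm_num) hi
    exact h3.trans (h2.trans (Nat.floor_le (by linarith)))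
  rw [← Finset.sum_fiberwise_of_maps_to hmap]
  have hterm : ∀ i ∈ Finset.range (L + 1), ∑ r ∈ F with Nat.log 2 (S.nm r) = i, (1 : ℝ) / S.nm r ≤
      Real.exp 2 * K ^ 2 * g X := by
    intro i hi
    rw [mem_range, Nat.lt_succ_iff] at hi
    have h2i : (0 : ℝ) < 2 ^ i := by positivity
    have h1 : ((F.filter fun r => Nat.log 2 (S.nm r) = i).card : ℝ) ≤ Real.exp 2 * (K * (2 ^ i * g (2 ^ i))) := by
      refine count_le S P (2 ^ i) h2i 2 _ (exp_sum S ψ g K H (2 ^ i) (one_le_pow₀ (by norm_num)) P) _ ?_ ?_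
      · exact (Finset.filter_subset _ _).trans (Finset.filter_subset _ _)
      · intro b hb
        rw [mem_filter] at hb
        have h3 : S.nm b < 2 ^ (i + 1) := by
          rw [← hb.2]
          exact Nat.lt_pow_succ_log_self (by norm_num) _
        have h4 : (S.nm b : ℝ) < 2 ^ (i + 1) := by exact_mod_cast h3
        rw [pow_succ] at h4
        linarith
    have h2 : ∑ r ∈ F with Nat.log 2 (S.nm r) = i, (1 : ℝ) / S.nm r ≤
        ((F.filter fun r => Nat.log 2 (S.nm r) = i).card : ℝ) * (1 / 2 ^ i) := by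
      rw [← nsmul_eq_mul]
      refine Finset.sum_le_card_nsmul _ _ _ fun r hr => ?_
      rw [mem_filter] at hr
      have h3 : 2 ^ i ≤ S.nm r := by
        rw [← hr.2]
        exact Nat.pow_log_le_self 2 (by have := nm_pos S r; omega)
      have h4 : (2 : ℝ) ^ i ≤ S.nm r := by exact_mod_cast h3
      exact one_div_le_one_div_of_le h2i h4
    have h5 := H.g_mono (2 ^ i) X (hL2 i hi)
    have h6 : ((F.filter fun r => Nat.log 2 (S.nm r) = i).card : ℝ) * (1 / 2 ^ i) ≤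
        Real.exp 2 * (K * (2 ^ i * g (2 ^ i))) * (1 / 2 ^ i) :=
      mul_le_mul_of_nonneg_right h1 (by positivity)
    have h7 : Real.exp 2 * (K * (2 ^ i * g (2 ^ i))) * (1 / 2 ^ i) = Real.exp 2 * K * g (2 ^ i) := by
      field_simp
    have h8 : Real.exp 2 * K * g (2 ^ i) ≤ Real.exp 2 * K * (K * g X) :=
      mul_le_mul_of_nonneg_left h5 (by positivity)
    calc _ ≤ _ := h2
      _ ≤ _ := h6
      _ = _ := h7
      _ ≤ _ := h8
      _ = _ := by ring
  have hsum : ∑ i ∈ Finset.range (L + 1), ∑ r ∈ F with Nat.log 2 (S.nm r) = i, (1 : ℝ) / S.nm r ≤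
      (L + 1 : ℝ) * (Real.exp 2 * K ^ 2 * g X) := by
    refine (Finset.sum_le_sum hterm).trans ?_
    simp
  have hg : 1 ≤ g X := H.g_one X
  have hLlog : (L : ℝ) ≤ 2 * Real.log X := by
    have h1 := hL2 L le_rfl
    have h2 := Real.log_le_log (by positivity) h1
    rw [Real.log_pow] at h2
    have h3 := Real.log_two_gt_d9
    have h4 : (L : ℝ) * (1 / 2) ≤ L * Real.log 2 := mul_le_mul_of_nonneg_left (by linarith) (Nat.cast_nonneg _)
    linarith
  refine hsum.trans ?_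
  have h9 : (L + 1 : ℝ) ≤ 3 * Real.log X := by linarith
  have h10 : 0 ≤ Real.exp 2 * K ^ 2 * g X := by positivity
  calc (L + 1 : ℝ) * (Real.exp 2 * K ^ 2 * g X) ≤ 3 * Real.log X * (Real.exp 2 * K ^ 2 * g X) :=
        mul_le_mul_of_nonneg_right h9 h10
    _ = _ := by ring

open Classical in
theorem inner {p : ℕ} {B B₀ k U Λ C : Type} [Field k]
    [AddCommGroup U] [Module k U] [AddCommGroup Λ] [Module k Λ]
    [AddCommGroup C] (S : Sys p B B₀ k U Λ C) (K' : ℝ) (δ : ℝ) (hδ : 0 < δ) (hδ1 : δ ≤ 1) (Y₀ : ℝ)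
    (hY : ∀ Y : ℝ, Y₀ ≤ Y → ∀ F : Finset B,
      (∀ q ∈ F, Y < S.N q ∧ (S.N q : ℝ) ≤ (1 + δ) * Y) → ∑ q ∈ F, Real.log (S.N q) ≤ K' * δ * Y)
    (hY1 : 1 ≤ Y₀) (X : ℝ) (hX : 1 ≤ X) (P r : Finset B) :
    ∑ q ∈ P, (if X < (S.N q : ℝ) * S.nm r ∧ (S.N q : ℝ) * S.nm r ≤ (1 + δ) * X then Real.log (S.N q) else 0) ≤
      if (S.nm r : ℝ) ≤ X then |K'| * δ * X * (1 / S.nm r) + ∑ q ∈ S.upto (2 * Y₀), Real.log (S.N q) else 0 := by
  have hn := nm_posR S r
  have hn0 : (0 : ℝ) < S.nm r := by linarith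
  have hC : 0 ≤ ∑ q ∈ S.upto (2 * Y₀), Real.log (S.N q) := Finset.sum_nonneg fun q _ => logN_nonneg S q
  have hK : 0 ≤ |K'| * δ * X * (1 / S.nm r) := by positivity
  rw [← Finset.sum_filter]
  set F := P.filter fun q => X < (S.N q : ℝ) * S.nm r ∧ (S.N q : ℝ) * S.nm r ≤ (1 + δ) * X with hF
  have hFq : ∀ q ∈ F, X / S.nm r < S.N q ∧ (S.N q : ℝ) ≤ (1 + δ) * (X / S.nm r) := by
    intro q hq
    rw [hF, mem_filter] at hq
    refine ⟨?_, ?_⟩
    · rw [div_lt_iff₀ hn0]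
      exact hq.2.1
    · rw [← mul_div_assoc, le_div_iff₀ hn0]
      exact hq.2.2
  by_cases hr : (S.nm r : ℝ) ≤ X
  · rw [if_pos hr]
    by_cases hc : Y₀ ≤ X / S.nm r
    · have h1 := hY _ hc F hFq
      have h2 : K' * δ * (X / S.nm r) ≤ |K'| * δ * X * (1 / S.nm r) := by
        have h3 : K' * (δ * (X / S.nm r)) ≤ |K'| * (δ * (X / S.nm r)) :=
          mul_le_mul_of_nonneg_right (le_abs_self _) (by positivity)
        calc K' * δ * (X / S.nm r) = K' * (δ * (X / S.nm r)) := by ring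
          _ ≤ _ := h3
          _ = _ := by ring
      linarith
    · push Not at hc
      have h1 : ∑ q ∈ F, Real.log (S.N q) ≤ ∑ q ∈ S.upto (2 * Y₀), Real.log (S.N q) := by
        refine Finset.sum_le_sum_of_subset_of_nonneg ?_ fun q _ _ => logN_nonneg S q
        intro q hq
        unfold Sys.upto
        rw [Set.Finite.mem_toFinset, Set.mem_setOf_eq]
        apply Nat.le_floor
        have h2 := (hFq q hq).2
        have h3 : 0 ≤ X / S.nm r := by positivity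
        have h4 : (1 + δ) * (X / S.nm r) ≤ 2 * (X / S.nm r) := mul_le_mul_of_nonneg_right (by linarith) h3
        linarith
      linarith
  · rw [if_neg hr]
    have hFe : F = ∅ := by
      rw [Finset.eq_empty_iff_forall_notMem]
      intro q hq
      have h2 := (hFq q hq).2
      have h5 : (2 : ℝ) ≤ S.N q := by exact_mod_cast S.two_le q
      have h3 : 0 ≤ X / S.nm r := by positivity
      have h4 : (1 + δ) * (X / S.nm r) ≤ 2 * (X / S.nm r) := mul_le_mul_of_nonneg_right (by linarith) h3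
      have h6 : 1 ≤ X / S.nm r := by linarith
      rw [le_div_iff₀ hn0] at h6
      exact hr (by linarith)
    rw [hFe]
    simp

theorem n_sht : N_SHT := by
  classical
  intro p _ B B₀ k U Λ C _ _ _ _ _ _ _ _ _ _ _ S ψ g K H K' hB
  refine ⟨3 * Real.exp 2 * K ^ 2 * |K'| + 1, by positivity, fun δ hδ hδ1 => ?_⟩
  obtain ⟨Y₁, hY₁⟩ := hB δ hδ hδ1
  set Y₀ := max Y₁ 1 with hY₀
  have hY : ∀ Y : ℝ, Y₀ ≤ Y → ∀ F : Finset B,
      (∀ q ∈ F, Y < S.N q ∧ (S.N q : ℝ) ≤ (1 + δ) * Y) → ∑ q ∈ F, Real.log (S.N q) ≤ K' * δ * Y :=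
    fun Y hY F hF => hY₁ Y ((le_max_left _ _).trans hY) F hF
  set C₁ := ∑ q ∈ S.upto (2 * Y₀), Real.log (S.N q) with hC₁
  have hC₁0 : 0 ≤ C₁ := Finset.sum_nonneg fun q _ => logN_nonneg S q
  refine ⟨Real.exp (max 1 (C₁ * Real.exp 1 * K / δ)), fun X hX P => ?_⟩
  have hX0 : 0 < X := (Real.exp_pos _).trans_le hX
  have hlog : max 1 (C₁ * Real.exp 1 * K / δ) ≤ Real.log X := (Real.le_log_iff_exp_le hX0).2 hX
  have hlog1 : 1 ≤ Real.log X := (le_max_left _ _).trans hlog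
  have hlog2 : C₁ * Real.exp 1 * K / δ ≤ Real.log X := (le_max_right _ _).trans hlog
  have hX1 : 1 ≤ X := by
    have h1 : Real.exp 0 ≤ Real.exp (max 1 (C₁ * Real.exp 1 * K / δ)) :=
      Real.exp_le_exp.2 (zero_le_one.trans (le_max_left _ _))
    rw [Real.exp_zero] at h1
    linarith
  have hg := H.g_one X
  set 𝓑 := P.powerset.filter fun b ↦ X < S.nm b ∧ (S.nm b : ℝ) ≤ (1 + δ) * X with h𝓑
  set F : B → Finset B → ℝ := fun q r =>
    if X < (S.N q : ℝ) * S.nm r ∧ (S.N q : ℝ) * S.nm r ≤ (1 + δ) * X then Real.log (S.N q) else 0 with hFdef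
  have hF0 : ∀ q r, 0 ≤ F q r := by
    intro q r
    simp only [hFdef]
    split_ifs
    · exact logN_nonneg S q
    · exact le_rfl
  have h1 : (𝓑.card : ℝ) * Real.log X ≤ ∑ b ∈ P.powerset, ∑ q ∈ b, F q (b.erase q) := by
    calc (𝓑.card : ℝ) * Real.log X = ∑ _b ∈ 𝓑, Real.log X := by simp
      _ ≤ ∑ b ∈ 𝓑, ∑ q ∈ b, F q (b.erase q) := by
          refine Finset.sum_le_sum fun b hb => ?_
          rw [h𝓑, mem_filter] at hb
          have h2 : Real.log X ≤ Real.log (S.nm b) := Real.log_le_log hX0 hb.2.1.le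
          rw [log_nm] at h2
          refine h2.trans (le_of_eq (Finset.sum_congr rfl fun q hq => ?_))
          have h3 : (S.N q : ℝ) * S.nm (b.erase q) = S.nm b := by
            rw [nm_erase S b q hq]
            push_cast
            rfl
          simp only [hFdef]
          rw [h3, if_pos hb.2]
      _ ≤ ∑ b ∈ P.powerset, ∑ q ∈ b, F q (b.erase q) :=
          Finset.sum_le_sum_of_subset_of_nonneg (Finset.filter_subset _ _) fun b _ _ =>
            Finset.sum_nonneg fun q _ => hF0 _ _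
  have h2 : ∑ b ∈ P.powerset, ∑ q ∈ b, F q (b.erase q) ≤ ∑ r ∈ P.powerset, ∑ q ∈ P, F q r := by
    have h3 := (Pool.Agent.Helper22.PP.c_dec B P).1 ℝ F
    have h4 : ∑ b ∈ P.powerset, ∑ q ∈ b, F q (b.erase q) = ∑ r ∈ P.powerset, ∑ q ∈ P \ r, F q r := by
      convert h3
    rw [h4]
    exact Finset.sum_le_sum fun r _ =>
      Finset.sum_le_sum_of_subset_of_nonneg Finset.sdiff_subset fun q _ _ => hF0 _ _
  have h3 : ∑ r ∈ P.powerset, ∑ q ∈ P, F q r ≤
      ∑ r ∈ P.powerset, if (S.nm r : ℝ) ≤ X then |K'| * δ * X * (1 / S.nm r) + C₁ else 0 :=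
    Finset.sum_le_sum fun r _ => inner S K' δ hδ hδ1 Y₀ hY (le_max_right _ _) X hX1 P r
  rw [← Finset.sum_filter, Finset.sum_add_distrib, ← Finset.mul_sum] at h3
  have h4 := sum_inv S ψ g K H X hlog1 hX1 P
  have h5 : ((P.powerset.filter fun r => (S.nm r : ℝ) ≤ X).card : ℝ) ≤ Real.exp 1 * (K * (X * g X)) :=
    count_le S P X hX0 1 _ (exp_sum S ψ g K H X hX1 P) _ (Finset.filter_subset _ _) fun b hb => by
      rw [mem_filter] at hb
      linarith [hb.2]
  have h6 : ∑ _r ∈ P.powerset with (S.nm _r : ℝ) ≤ X, C₁ ≤ C₁ * (Real.exp 1 * (K * (X * g X))) := by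
    rw [Finset.sum_const, nsmul_eq_mul, mul_comm]
    exact mul_le_mul_of_nonneg_left h5 hC₁0
  have h7 : |K'| * δ * X * ∑ r ∈ P.powerset with (S.nm r : ℝ) ≤ X, (1 : ℝ) / S.nm r ≤
      |K'| * δ * X * (3 * Real.exp 2 * K ^ 2 * g X * Real.log X) :=
    mul_le_mul_of_nonneg_left h4 (by positivity)
  have h8 : C₁ * (Real.exp 1 * (K * (X * g X))) ≤ δ * (X * g X) * Real.log X := by
    rw [div_le_iff₀ hδ] at hlog2
    have h9 : 0 ≤ X * g X := by positivity
    calc C₁ * (Real.exp 1 * (K * (X * g X))) = (C₁ * Real.exp 1 * K) * (X * g X) := by ring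
      _ ≤ (Real.log X * δ) * (X * g X) := mul_le_mul_of_nonneg_right hlog2 h9
      _ = _ := by ring
  have h9 : (𝓑.card : ℝ) * Real.log X ≤
      ((3 * Real.exp 2 * K ^ 2 * |K'| + 1) * δ * (X * g X)) * Real.log X := by
    calc (𝓑.card : ℝ) * Real.log X ≤ |K'| * δ * X * (3 * Real.exp 2 * K ^ 2 * g X * Real.log X) +
          δ * (X * g X) * Real.log X := by linarith
      _ = _ := by ring
  exact le_of_mul_le_mul_right h9 (by linarith)

end Pool.Agent.Helper30.ND
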